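import Mathlib
import Pool.Agent.RQM.C46
import Pool.Agent.RQM.C77
import Pool.Agent.RQM.C94
import Pool.Agent.BQ1.ALL

/-!
The class number one problem for the real quadratic fields for which the partial quotients
`a_1, ..., a_{ℓ-1}` of `ω_d = [a_0; a_1, a_2, ...]` are all equal, `ℓ` being the period length:
the complete list, for every length `ℓ`.
-/

namespace Pool.Agent.Results.MP_321647_nt.AllEqualQuotients

open scoped NumberField
open Pool.Agent.LibH4

/-- The standard generator `ω_d` of the ring of integers of `ℚ(√d)`, for squarefree `d > 1`: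
`(1 + √d) / 2` if `d ≡ 1` modulo `4`, and `√d` otherwise. -/
noncomputable def omega (d : ℕ) : ℝ :=
  if d % 4 = 1 then (1 + Real.sqrt (d : ℝ)) / 2 else Real.sqrt (d : ℝ)

/-- The complete quotients of `ω_d`: the first is `ω_d` itself (index `0`), and each one is
`1 / (x - ⌊x⌋)` for the preceding one `x`. -/
noncomputable def completeQuotient (d i : ℕ) : ℝ :=
  (fun x : ℝ => (Int.fract x)⁻¹)^[i] (omega d)

/-- The partial quotient `a_i` of `ω_d = [a_0; a_1, a_2, ...]`. -/
noncomputable def partialQuotient (d i : ℕ) : ℤ := ⌊completeQuotient d i⌋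

/-- The length of the period of the continued fraction of `ω_d`: the minimal period of the first
complete quotient `1 / (ω_d - ⌊ω_d⌋)` under the map `x ↦ 1 / (x - ⌊x⌋)` that sends each complete
quotient to the next one. -/
noncomputable def periodLength (d : ℕ) : ℕ :=
  Function.minimalPeriod (fun x : ℝ => (Int.fract x)⁻¹) (completeQuotient d 1)

/-- the period length is positive -/
lemma period_pos (d : ℕ) (h1 : 1 < d) (hsq : Squarefree d) : 0 < periodLength d := by
  obtain ⟨m, B, s, x, c, h, hx1, hm, hB, -⟩ := CFO.exists_data d h1 hsq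
  have e : periodLength d = Function.minimalPeriod gsh (x 1) := by rw [hx1]; rfl
  rw [e]
  have hns : ¬ IsSquare (B ^ 2 + 4 * m) := by
    rintro ⟨z, hz⟩
    have h2 : s ^ 2 = (z : ℝ) ^ 2 := by
      rw [h.sq, hz]
      push_cast
      ring
    rcases sq_eq_sq_iff_eq_or_eq_neg.1 h2 with h3 | h3
    · exact h.irr ⟨z, by rw [h3]; push_cast; rfl⟩
    · exact h.irr ⟨-z, by rw [h3]; push_cast; rfl⟩
  obtain ⟨X, Y, hXY, hY⟩ := Pell.exists_of_not_isSquare (d := B ^ 2 + 4 * m) (by positivity) hns
  refine SU.unit_per h hm hB (X := 2 * X) (Y := 2 * |Y|) ?_ (Or.inl ?_)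
  · have := Int.one_le_abs hY
    omega
  · rw [mul_pow, mul_pow, sq_abs]
    linear_combination 4 * hXY

/-- a squarefreeness test -/
lemma sqf_of_chk {d : ℕ} (h0 : 0 < d) (hd : d < 5041)
    (h : ((List.range 71).all fun x => decide (x < 2) || decide (¬ x * x ∣ d)) = true) :
    Squarefree d := by
  rw [List.all_eq_true] at h
  intro x hx
  rw [Nat.isUnit_iff]
  by_contra hne
  have hx1 : x ≠ 0 := by
    rintro rfl
    simp only [mul_zero, zero_dvd_iff] at hx
    omega
  have hle : x * x ≤ d := Nat.le_of_dvd h0 hx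
  have hx50 : x < 71 := by nlinarith
  have := h x (List.mem_range.2 hx50)
  rw [Bool.or_eq_true, decide_eq_true_eq, decide_eq_true_eq] at this
  rcases this with h3 | h3
  · omega
  · exact h3 hx

/-- The list. -/
def list38 : List ℕ := [2, 3, 5, 6, 7, 11, 13, 17, 21, 29, 37, 38, 53, 61, 69, 77, 83, 93, 101,
  149, 173, 197, 227, 237, 293, 317, 413, 437, 453, 461, 557, 677, 773, 797, 1013, 1133, 1253, 1877]

lemma one_list : ∀ e ∈ UP.rdl 1, e ∈ list38 := by decide +kernel

lemma two_list : ∀ e ∈ UP.rdl 2, e ∈ list38 := by decide +kernel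

lemma const_list : ∀ e ∈ CW.dL, e ∈ list38 := by decide +kernel

lemma list_split : ∀ e ∈ list38, e ∈ UP.rdl 1 ∨ e ∈ CW.dL := by decide +kernel

lemma list_chk : ∀ d ∈ list38, 1 < d ∧ d < 5041 ∧
    ((List.range 71).all fun x => decide (x < 2) || decide (¬ x * x ∣ d)) = true := by
  decide +kernel

/-- Let `ω_d = [a_0; a_1, a_2, ...]` have period length `ℓ`. The real quadratic fields `ℚ(√d)` with
unique factorisation for which the partial quotients `a_1, ..., a_{ℓ-1}` are all equal are exactly
those with `d` in the following list of thirty-eight numbers. -/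
theorem result : {d : ℕ | 1 < d ∧ Squarefree d ∧
      (∃ a : ℤ, ∀ i : ℕ, 1 ≤ i → i < periodLength d → partialQuotient d i = a) ∧
      UniqueFactorizationMonoid (𝓞 (IntermediateField.adjoin ℚ {Real.sqrt (d : ℝ)}))} =
    {2, 3, 5, 6, 7, 11, 13, 17, 21, 29, 37, 38, 53, 61, 69, 77, 83, 93, 101, 149, 173, 197, 227,
      237, 293, 317, 413, 437, 453, 461, 557, 677, 773, 797, 1013, 1133, 1253, 1877} := by
  ext d
  rw [Set.mem_ofPred_eq]
  have el : d ∈ ({2, 3, 5, 6, 7, 11, 13, 17, 21, 29, 37, 38, 53, 61, 69, 77, 83, 93, 101, 149, 173,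
      197, 227, 237, 293, 317, 413, 437, 453, 461, 557, 677, 773, 797, 1013, 1133, 1253,
      1877} : Set ℕ) ↔ d ∈ list38 := by
    simp only [list38, List.mem_cons, List.not_mem_nil, or_false, Set.mem_insert_iff,
      Set.mem_singleton_iff]
  rw [el]
  constructor
  · rintro ⟨h1, hsq, ⟨a, hw⟩, hU⟩
    have h0 := period_pos d h1 hsq
    rcases Nat.lt_or_ge 2 (periodLength d) with h3 | h2
    · have hw1 := hw 1 le_rfl (by omega)
      have ha0 : 0 ≤ a := by
        rw [← hw1]
        apply Int.floor_nonneg.2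
        unfold completeQuotient
        rw [Function.iterate_one]
        exact inv_nonneg.2 (Int.fract_nonneg _)
      obtain ⟨n, rfl⟩ := Int.eq_ofNat_of_zero_le ha0
      exact const_list d (BQ1.fwd_all d h1 hsq (a := n) (L := periodLength d) rfl h3
        (fun i hi1 hi2 => hw i hi1 hi2) hU)
    · rcases Nat.lt_or_ge 1 (periodLength d) with h4 | h4
      · exact two_list d ((UP.two_iff d h1 hsq).1 ⟨(le_antisymm h2 h4 : periodLength d = 2), hU⟩)
      · exact one_list d ((UP.one_iff d h1 hsq).1 ⟨(le_antisymm h4 h0 : periodLength d = 1), hU⟩)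
  · intro h
    rcases list_split d h with hd | hd
    · obtain ⟨h1, hsq, hL, hU⟩ := UP.rdl_spec hd
      have hL' : periodLength d = 1 := hL
      refine ⟨h1, hsq, ⟨0, fun i hi1 hi2 => ?_⟩, hU⟩
      omega
    · obtain ⟨h1, h2, h3⟩ := list_chk d h
      have hsq : Squarefree d := sqf_of_chk (by omega) h2 h3
      obtain ⟨a, L, -, -, hL, hw⟩ := CW.words hd hsq
      have hL' : periodLength d = L := hL
      refine ⟨h1, hsq, ⟨a, fun i hi1 hi2 => ?_⟩, CW.fields hd hsq⟩
      rw [hL'] at hi2
      exact hw i hi1 hi2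

end Pool.Agent.Results.MP_321647_nt.AllEqualQuotients
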