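import Mathlib
import Pool.Agent.OEG.FinA
import Pool.Agent.OEG.Fin
import Pool.Agent.OEX.UFD
import Pool.Agent.OEX.NRM
import Pool.Agent.OEX.RDL
import Pool.Agent.OEX.CF
import Pool.Agent.OEX.FIN

/-!
The real quadratic fields of class number one in which all primes below Minkowski's bound `√D / 2`,
with at most one exception, are inert.
-/

namespace Pool.Agent.Results.MP_321647_nt.OneNonInertPrime

open scoped NumberField

/-- The discriminant of `ℚ(√d)`, for squarefree `d > 1`. -/
def disc (d : ℕ) : ℕ := if d % 4 = 1 then d else 4 * d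

/-- The prime number `p` is inert in `ℚ(√d)`: it is a prime element of the ring of integers. -/
def IsInert (d p : ℕ) : Prop :=
  Prime ((p : ℕ) : 𝓞 (IntermediateField.adjoin ℚ {Real.sqrt (d : ℝ)}))

/-- All prime numbers `p < √D / 2`, where `D` is the discriminant of `ℚ(√d)`, are inert in `ℚ(√d)`,
with at most one exception `e`. -/
def AtMostOneException (d : ℕ) : Prop :=
  ∃ e : ℕ, ∀ p : ℕ, p.Prime → (p : ℝ) < Real.sqrt (disc d) / 2 → p ≠ e → IsInert d p

/-- The sixty-six numbers of the list. -/
def list66 : Finset ℕ :=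
  {2, 3, 5, 6, 7, 11, 13, 14, 17, 21, 23, 29, 33, 37, 38, 41, 47, 53, 61, 62, 69, 77, 83, 89, 93,
  101, 113, 133, 137, 149, 157, 167, 173, 197, 213, 227, 237, 269, 293, 317, 341, 353, 397, 398,
  413, 437, 453, 461, 557, 593, 677, 717, 773, 853, 941, 1077, 1097, 1133, 1217, 1253, 1333, 1553,
  1877, 2273, 3053, 7213}

/-- Let `d > 1` be squarefree. The ring of integers of `ℚ(√d)` is a unique factorisation domain and
all primes below `√D / 2`, with at most one exception, are inert in `ℚ(√d)`, if and only if `d` is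
one of sixty-six numbers. If the primes below `100000` are not all inert, then all primes below
`√D / 2`, with at most one exception, are inert if and only if `d` is one of these numbers or one of
eight others. -/
theorem result (d : ℕ) (h1 : 1 < d) (hsq : Squarefree d) :
    (UniqueFactorizationMonoid (𝓞 (IntermediateField.adjoin ℚ {Real.sqrt (d : ℝ)})) ∧
      AtMostOneException d ↔ d ∈ list66) ∧
    ((∃ q : ℕ, q.Prime ∧ q < 100000 ∧ ¬ IsInert d q) →
      (AtMostOneException d ↔
        d ∈ list66 ∪ ({65, 85, 257, 377, 629, 733, 2917, 5297} : Finset ℕ))) := by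
  have h := OEX.fin OEX.t_V OEX.t_N OEX.t_W OEX.t_S OEX.t_A0 OEX.t_UFD OEX.t_INERT OEX.t_NRM
    OEX.t_RDL OEX.t_CF1 OEX.t_CF2 OEX.t_CF3 d h1 hsq
  have e1 : d ∈ OEX.Ld ↔
      d ∈ list66 ∪ ({65, 85, 257, 377, 629, 733, 2917, 5297} : Finset ℕ) := by
    constructor
    · intro ha
      have key : ∀ x ∈ OEX.Ld,
          x ∈ list66 ∪ ({65, 85, 257, 377, 629, 733, 2917, 5297} : Finset ℕ) := by
        decide +kernel
      exact key d ha
    · intro ha
      have key : ∀ x ∈ list66 ∪ ({65, 85, 257, 377, 629, 733, 2917, 5297} : Finset ℕ),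
          x ∈ OEX.Ld := by
        decide +kernel
      exact key d ha
  have e2 : (d ∈ OEX.Ld ∧ d ∉ ([65, 85, 257, 377, 629, 733, 2917, 5297] : List ℕ)) ↔
      d ∈ list66 := by
    constructor
    · rintro ⟨ha, hb⟩
      have key : ∀ x ∈ OEX.Ld, x ∉ ([65, 85, 257, 377, 629, 733, 2917, 5297] : List ℕ) →
          x ∈ list66 := by
        decide +kernel
      exact key d ha hb
    · intro ha
      have key : ∀ x ∈ list66,
          x ∈ OEX.Ld ∧ x ∉ ([65, 85, 257, 377, 629, 733, 2917, 5297] : List ℕ) := by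
        decide +kernel
      exact key d ha
  have ec : OEX.Cond d → AtMostOneException d := fun ⟨e, _, he⟩ => ⟨e, he⟩
  constructor
  · rw [← e2]
    constructor
    · rintro ⟨hU, hA⟩
      have hc : OEX.Cond d := OEG.cond_of OEG.no1 OEG.no2 d h1 hsq hU hA
      have hd := h.1.1 hc
      exact ⟨hd, (h.2 hd).1 hU⟩
    · rintro ⟨ha, hb⟩
      exact ⟨(h.2 ha).2 hb, ec (h.1.2 ha)⟩
  · rintro ⟨q, hqp, hq1, hq2⟩
    rw [← e1, ← h.1]
    refine ⟨?_, ec⟩
    rintro ⟨e, he⟩
    by_cases hlt : e < 100000
    · exact ⟨e, hlt, he⟩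
    · push Not at hlt
      refine ⟨0, by norm_num, ?_⟩
      intro p hp hpD _
      by_cases hpe : p = e
      · exfalso
        apply hq2
        refine he q hqp (lt_trans ?_ hpD) (by omega)
        have : q < p := by omega
        exact_mod_cast this
      · exact he p hp hpD hpe

end Pool.Agent.Results.MP_321647_nt.OneNonInertPrime
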