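import Mathlib
import Pool.Agent.PSX.SevLe

/-!
The class number one problem for the real quadratic fields of continued fraction period length at
most seven.
-/

namespace Pool.Agent.Results.MP_321647_nt.ShortPeriods

open scoped NumberField
open Pool.Agent.LibH4

/-- The standard generator `ω_d` of the ring of integers of `ℚ(√d)`, for squarefree `d > 1`:
`(1 + √d) / 2` if `d ≡ 1` modulo `4`, and `√d` otherwise. -/
noncomputable def omega (d : ℕ) : ℝ :=
  if d % 4 = 1 then (1 + Real.sqrt (d : ℝ)) / 2 else Real.sqrt (d : ℝ)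

/-- The length of the period of the continued fraction of `ω_d`: the minimal period of the first
complete quotient `1 / (ω_d - ⌊ω_d⌋)` under the map `x ↦ 1 / (x - ⌊x⌋)` that sends each complete
quotient to the next one. -/
noncomputable def periodLength (d : ℕ) : ℕ :=
  Function.minimalPeriod (fun x : ℝ => (Int.fract x)⁻¹) (Int.fract (omega d))⁻¹

/-- The real quadratic fields `ℚ(√d)` with unique factorisation for which the continued fraction of
`ω_d` has period length at most seven are exactly those with `d` in the following list of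
ninety-nine numbers. -/
theorem result : {d : ℕ | 1 < d ∧ Squarefree d ∧ periodLength d ≤ 7 ∧
      UniqueFactorizationMonoid (𝓞 (IntermediateField.adjoin ℚ {Real.sqrt (d : ℝ)}))} =
    {2, 3, 5, 6, 7, 11, 13, 14, 17, 19, 21, 22, 23, 29, 33, 37, 38, 41, 47, 53, 57, 59, 61, 62, 69,
      77, 83, 89, 93, 101, 107, 109, 113, 131, 133, 137, 141, 149, 157, 167, 173, 181, 197, 213,
      227, 237, 253, 269, 278, 293, 309, 317, 341, 373, 381, 389, 397, 398, 413, 437, 453, 461,
      509, 557, 573, 653, 677, 717, 749, 773, 797, 813, 853, 893, 941, 997, 1013, 1077, 1133,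
      1253, 1293, 1397, 1493, 1757, 1877, 1893, 1997, 2309, 2453, 2477, 2621, 2693, 2757, 3053,
      3317, 3533, 3797, 4253, 4973} := by
  ext d
  rw [Set.mem_ofPred_eq]
  have e : ∀ d : ℕ, periodLength d = Function.minimalPeriod gsh (gsh (omg d)) := fun _ => rfl
  constructor
  · rintro ⟨h1, hsq, h2, h4⟩
    rw [e] at h2
    have h := (PSX.sev_le d h1 hsq).1 ⟨h2, h4⟩
    simpa only [PSX.l99, List.mem_cons, List.not_mem_nil, or_false, Set.mem_insert_iff,
      Set.mem_singleton_iff] using h
  · intro h
    have h' : d ∈ PSX.l99 := by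
      simpa only [PSX.l99, List.mem_cons, List.not_mem_nil, or_false, Set.mem_insert_iff,
        Set.mem_singleton_iff] using h
    obtain ⟨h1, hsq⟩ := PSX.l99_sq d h'
    obtain ⟨h2, h4⟩ := (PSX.sev_le d h1 hsq).2 h'
    exact ⟨h1, hsq, by rw [e]; exact h2, h4⟩

end Pool.Agent.Results.MP_321647_nt.ShortPeriods
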