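import Mathlib
import Pool.Agent.RQM.C117
import Pool.Agent.RQM.C88

/-!
The class number one problem for all real quadratic fields whose fundamental unit
`(a + b√d)/2` has `b ≤ 10000`.
-/

namespace Pool.Agent.Results.MP_321647_nt.SmallUnits

open scoped NumberField

set_option maxRecDepth 100000 in
/-- The squarefree `d > 1` for which `x² − d y² = 4` or `x² − d y² = −4` has an integer solution
with `0 < y ≤ 10000` and for which the ring of integers of `ℚ(√d)` is a unique factorisation domain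
are exactly 167 numbers. -/
theorem result : {d : ℕ | 1 < d ∧ Squarefree d ∧
      (∃ x y : ℤ, 0 < y ∧ y ≤ 10000 ∧ (x ^ 2 - d * y ^ 2 = 4 ∨ x ^ 2 - d * y ^ 2 = -4)) ∧
      UniqueFactorizationMonoid (𝓞 (IntermediateField.adjoin ℚ {Real.sqrt (d : ℝ)}))} =
    {2, 3, 5, 6, 7, 11, 13, 14, 17, 19, 21, 22, 23, 29, 31, 33, 37, 38, 41, 43, 46, 47, 53, 57,
      59, 61, 62, 69, 71, 73, 77, 83, 86, 89, 93, 97, 101, 107, 109, 113, 129, 131, 133, 137, 141,
      149, 157, 158, 161, 167, 173, 177, 181, 197, 206, 209, 213, 227, 233, 237, 253, 269, 277,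
      278, 293, 301, 309, 317, 341, 349, 353, 373, 381, 383, 389, 397, 398, 413, 437, 453, 461,
      501, 503, 509, 517, 557, 563, 573, 581, 597, 613, 653, 677, 701, 717, 749, 773, 789, 797,
      813, 821, 853, 869, 893, 917, 933, 941, 989, 997, 1013, 1061, 1077, 1109, 1133, 1181, 1253,
      1277, 1293, 1333, 1349, 1397, 1437, 1493, 1613, 1637, 1733, 1757, 1797, 1877, 1893, 1949,
      1973, 1997, 2309, 2333, 2357, 2453, 2477, 2573, 2621, 2693, 2757, 2789, 2933, 2957, 3053,
      3093, 3197, 3317, 3437, 3533, 3677, 3797, 3989, 4133, 4157, 4253, 4373, 4413, 4517, 4973,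
      5309, 6677, 6797, 7013, 9173, 10853} := by
  have h : {d : ℕ | 1 < d ∧ Squarefree d ∧
      (∃ x y : ℤ, 0 < y ∧ y ≤ 10000 ∧ (x ^ 2 - d * y ^ 2 = 4 ∨ x ^ 2 - d * y ^ 2 = -4)) ∧
      UniqueFactorizationMonoid (𝓞 (IntermediateField.adjoin ℚ {Real.sqrt (d : ℝ)}))} =
      {d | d ∈ SU.lU} := SU.small_units
  rw [h]
  ext d
  simp only [SU.lU, Set.mem_ofPred_eq, List.mem_cons, List.not_mem_nil, or_false,
    Set.mem_insert_iff, Set.mem_singleton_iff]

end Pool.Agent.Results.MP_321647_nt.SmallUnits
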